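import Mathlib
import Pool.Agent.H50.Acm2

namespace Pool.Agent.Results.MP_4f2529_ag.Exists

open MvPolynomial Pool.Agent.H50.Acm

/-- Pseudo-Frobenius numbers of `T`. -/
def PF (T : AddSubmonoid ℕ) : Set ℤ :=
  {x | x ∉ Nat.cast '' (T : Set ℕ) ∧ ∀ s ∈ T, s ≠ 0 → x + s ∈ Nat.cast '' (T : Set ℕ)}

/-- The classes in `B / I` killed by every `y i`. -/
noncomputable def socle (k : Type) [Field k] {B ι : Type} [CommRing B] [Algebra k B] (y : ι → B)
    (I : Ideal B) : Submodule k (B ⧸ I) :=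
  ⨅ i, LinearMap.ker (LinearMap.mulLeft k (Ideal.Quotient.mk I (y i)))

/-- The dimension over `k` of that subspace. -/
noncomputable def socleDim (k : Type) [Field k] {B ι : Type} [CommRing B] [Algebra k B]
    (y : ι → B) (I : Ideal B) : ℕ :=
  Module.finrank k (socle k y I)

section
variable (k : Type) [Field k] {n : ℕ} (a : Fin (n + 1) → ℕ)

/-- `u ^ (a i) * v ^ (d - a i)` with `d = a n`. -/
noncomputable def gen (i : Fin (n + 1)) : MvPolynomial (Fin 2) k :=
  X 0 ^ a i * X 1 ^ (a (Fin.last n) - a i)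

/-- The homogeneous coordinate ring `k[C] ⊆ k[u, v]`. -/
noncomputable def coordRing : Subalgebra k (MvPolynomial (Fin 2) k) :=
  Algebra.adjoin k (Set.range (gen k a))

/-- The class of `x_i` in `k[C]`. -/
noncomputable def x (i : Fin (n + 1)) : coordRing k a := ⟨gen k a i, Algebra.subset_adjoin ⟨i, rfl⟩⟩

/-- The system of parameters `x_0, x_n` of the two-dimensional ring `k[C]` is a regular sequence. -/
def ACM : Prop := RingTheory.Sequence.IsRegular (coordRing k a) [x k a 0, x k a (Fin.last n)]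

/-- The Cohen-Macaulay type: the dimension of the socle of the Artinian reduction
`k[C] / (x_0, x_n)`. -/
noncomputable def cmType : ℕ :=
  socleDim k (x k a) (Ideal.span {x k a 0, x k a (Fin.last n)})
end

theorem result (k : Type) [Field k] (T : AddSubmonoid ℕ) (hT : (T : Set ℕ)ᶜ.Finite) (t : ℕ)
    (ht : (PF T).ncard = t) (h1 : 1 < t) :
    ∃ (n : ℕ) (a : Fin (n + 1) → ℕ), a 0 = 0 ∧ StrictMono a ∧ Finset.univ.gcd a = 1 ∧
      AddSubmonoid.closure (Set.range a) = T ∧ ACM k a ∧ cmType k a = t := by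
  classical
  have hne : (T : Set ℕ)ᶜ.Nonempty := by
    by_contra h
    have h2 : ∀ z, z ∈ T := fun z => by_contra fun hz => h ⟨z, hz⟩
    have : PF T ⊆ {-1} := fun z hz => by
      obtain ⟨w, -, hw⟩ := hz.2 1 (h2 1) one_ne_zero
      have : ¬ 0 ≤ z := fun h3 => hz.1 ⟨z.toNat, h2 _, Int.toNat_of_nonneg h3⟩
      simp only [Set.mem_singleton_iff]; omega
    have := Set.ncard_le_ncard this (Set.finite_singleton _)
    rw [Set.ncard_singleton] at this; omega
  obtain ⟨F, e, c⟩ := exists_ctx hT hne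
  have eb := c.eb
  have hPF : PF T = Nat.cast '' {f | P T f} := by
    ext z
    refine ⟨fun hz => ?_, ?_⟩
    · have h0 : 0 ≤ z := not_lt.1 fun h => by
        obtain ⟨w, h2, h3⟩ := hz.2 (F - z).toNat (c.big _ (by omega)) (by omega)
        exact c.pF.1 ((show w = F by omega) ▸ h2)
      lift z to ℕ using h0
      refine ⟨z, ⟨fun h => hz.1 ⟨z, h, rfl⟩, fun s hs h => ?_⟩, rfl⟩
      obtain ⟨w, h2, h3⟩ := hz.2 s hs h
      exact (show w = z + s by omega) ▸ h2
    · rintro ⟨f, hf, rfl⟩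
      refine ⟨?_, fun s hs h => ⟨f + s, hf.2 s hs h, by simp⟩⟩
      rintro ⟨w, h2, h3⟩
      exact hf.1 ((show w = f by omega) ▸ h2)
  let A := (Finset.range (D F e + 1)).filter fun z => z ∈ T ∧ U T F e (D F e - z)
  have hA : ∀ z, z ∈ A ↔ z ≤ D F e ∧ z ∈ T ∧ U T F e (D F e - z) := fun z => by
    simp [A, Nat.lt_succ_iff]
  have A0 : 0 ∈ A := (hA _).2 ⟨by omega, T.zero_mem, c.Ubig (by omega)⟩
  have AD : D F e ∈ A := (hA _).2 ⟨le_rfl, c.big _ (by omega), .inl (by omega)⟩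
  obtain ⟨n, hn⟩ : ∃ n, A.card = n + 1 := ⟨A.card - 1, by
    have := Finset.card_pos.2 ⟨0, A0⟩; omega⟩
  let a : Fin (n + 1) → ℕ := A.orderEmbOfFin hn
  have hs : StrictMono a := (A.orderEmbOfFin hn).strictMono
  have ha : ∀ i, a i ∈ A := A.orderEmbOfFin_mem hn
  have ha' : ∀ z ∈ A, ∃ i, a i = z := fun z hz => by
    have : z ∈ Set.range a := by rw [A.range_orderEmbOfFin hn]; exact hz
    exact this
  have a0 : a 0 = 0 := by
    obtain ⟨i, hi⟩ := ha' 0 A0
    have := hs.monotone (Fin.zero_le i); omega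
  have aD : a (Fin.last n) = D F e := by
    obtain ⟨i, hi⟩ := ha' _ AD
    have := hs.monotone (Fin.le_last i)
    have := ((hA _).1 (ha (Fin.last n))).1
    omega
  have hg : ∀ i, gen k a i = monomial (ex (a i) (D F e - a i)) 1 := fun i => by
    rw [gen, aD, mono_eq]
  have hx : ∀ i, ∃ p q, p + q = D F e ∧ p ∈ T ∧ U T F e q ∧ gen k a i = monomial (ex p q) 1 :=
    fun i => have h := (hA _).1 (ha i); ⟨_, _, Nat.add_sub_cancel' h.1, h.2.1, h.2.2, hg i⟩
  have hx' : ∀ p q, p + q = D F e → p ∈ T → U T F e q → ∃ i, a i = p ∧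
      gen k a i = monomial (ex p q) 1 := fun p q e1 e2 e3 => by
    obtain rfl : q = D F e - p := by omega
    obtain ⟨i, rfl⟩ := ha' p ((hA _).2 ⟨by omega, e2, e3⟩)
    exact ⟨i, rfl, hg i⟩
  have hcl : AddSubmonoid.closure (Set.range a) = T := by
    refine le_antisymm (AddSubmonoid.closure_le.2 ?_) fun z hz => ?_
    · rintro _ ⟨i, rfl⟩; exact ((hA _).1 (ha i)).2.1
    · have h2 : z + D F e ≤ D F e * (z + 1) := by
        rw [mul_add, mul_one]; exact Nat.add_le_add_right (Nat.le_mul_of_pos_left _ (by omega)) _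
      refine c.ind (Q := fun z _ => z ∈ AddSubmonoid.closure (Set.range a)) (zero_mem _)
        (fun p q _ _ e1 e2 e3 h => add_mem ?_ h) (y := D F e * (z + 1) - z)
        ⟨hz, c.Ubig (by omega), ⟨z + 1, by omega⟩⟩
      obtain ⟨i, hi, -⟩ := hx' p q e1 e2 e3
      exact AddSubmonoid.subset_closure ⟨i, hi⟩
  have hB : ∀ p, p ∈ coordRing k a ↔ ∀ m ∈ p.support, S T F e (m 0) (m 1) :=
    c.adj fun g => ⟨by rintro ⟨i, rfl⟩; exact hx i, by
      rintro ⟨p, q, e1, e2, e3, rfl⟩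
      obtain ⟨i, -, hi⟩ := hx' p q e1 e2 e3
      exact ⟨i, hi⟩⟩
  have x0 : (x k a 0).1 = monomial (ex 0 (D F e)) 1 := by simpa [a0, x] using hg 0
  have xD : (x k a (Fin.last n)).1 = monomial (ex (D F e) 0) 1 := by
    simpa [aD, x] using hg (Fin.last n)
  have sub : ∀ {p q p' q' : ℕ}, D F e ∣ p + q → p' + q' + D F e = p + q → D F e ∣ p' + q' :=
    fun h h' => (Nat.dvd_add_left (dvd_refl _)).1 (h' ▸ h)
  have hI : ∀ z, z ∈ Ideal.span {x k a 0, x k a (Fin.last n)} ↔
      ∀ m ∈ z.1.support, N T F e (m 0) (m 1) := by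
    refine memI hB ?_ (fun p q p' q' h h' => ?_) ?_
    · rintro _ (rfl | rfl)
      · exact ⟨_, _, x0, .inr ⟨le_rfl, .inl (by omega)⟩⟩
      · exact ⟨_, _, xD, .inl ⟨le_rfl, by rw [Nat.sub_self]; exact T.zero_mem⟩⟩
    · rw [add_comm p', add_comm q']; exact c.Nadd h h'.1 h'.2.1
    · rintro p q h (⟨h2, h3⟩ | ⟨h2, h3⟩)
      · exact ⟨_, .inr rfl, _, _, p - D F e, q, xD, ⟨h3, h.2.1, sub h.2.2 (by omega)⟩,
          by omega, rfl⟩
      · exact ⟨_, .inl rfl, _, _, p, q - D F e, x0, ⟨h.1, h3, sub h.2.2 (by omega)⟩, rfl, by omega⟩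
  have hI0 : ∀ z, z ∈ Ideal.span {x k a 0} ↔
      ∀ m ∈ z.1.support, D F e ≤ m 1 ∧ U T F e (m 1 - D F e) := by
    refine memI (Q := fun _ q => D F e ≤ q ∧ U T F e (q - D F e)) hB ?_
      (fun p q p' q' h h' => ⟨by omega, ?_⟩) ?_
    · rintro _ rfl
      exact ⟨_, _, x0, le_rfl, .inl (by omega)⟩
    · rw [Nat.add_sub_assoc h.1]; exact c.Uadd h'.2.1 h.2
    · rintro p q h ⟨h2, h3⟩
      exact ⟨_, rfl, _, _, p, q - D F e, x0, ⟨h.1, h3, sub h.2.2 (by omega)⟩, rfl, by omega⟩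
  refine ⟨n, a, a0, hs, ?_, hcl, ⟨?_, ?_⟩, ?_⟩
  · have : ∀ z ∈ T, Finset.univ.gcd a ∣ z := fun z hz => by
      rw [← hcl] at hz
      induction hz using AddSubmonoid.closure_induction with
      | mem z hz => obtain ⟨i, rfl⟩ := hz; exact Finset.gcd_dvd (Finset.mem_univ i)
      | zero => simp
      | add _ _ _ _ h h' => exact dvd_add h h'
    exact Nat.dvd_one.1 ((Nat.dvd_add_right (this (F + 1) (c.big _ (by omega)))).1
      (this (F + 1 + 1) (c.big _ (by omega))))
  · rw [RingTheory.Sequence.isWeaklyRegular_cons_iff,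
      RingTheory.Sequence.isWeaklyRegular_singleton_iff]
    refine ⟨IsSMulRegular.of_ne_zero fun h => ?_, ?_⟩
    · have : monomial (ex 0 (D F e)) (1 : k) = 0 := x0.symm.trans (congrArg Subtype.val h)
      simp at this
    · refine (isSMulRegular_quotient_iff_mem_of_smul_mem _ _).2 fun z hz => ?_
      rw [← Submodule.ideal_span_singleton_smul, smul_eq_mul, Ideal.mul_top, hI0] at hz ⊢
      intro m hm
      have := hz (ex (D F e) 0 + m) (by
        change _ ∈ ((x k a (Fin.last n)).1 * z.1).support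
        rwa [xD, mem_support_iff, coeff_monomial_mul, one_mul, ← mem_support_iff])
      simpa using this
  · intro h
    have h2 : (1 : coordRing k a) ∈ Ideal.span {x k a 0, x k a (Fin.last n)} := by
      have h3 : Ideal.ofList [x k a 0, x k a (Fin.last n)] =
          Ideal.span {x k a 0, x k a (Fin.last n)} := by
        unfold Ideal.ofList; congr 1; ext; simp
      rw [h3, smul_eq_mul, Ideal.mul_top] at h
      exact h ▸ Submodule.mem_top
    rcases (hI _).1 h2 0 (by simp) with h3 | h3 <;> simp at h3 <;> omega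
  · rw [← ht, hPF, Set.ncard_image_of_injective _ Nat.cast_injective]
    refine c.soc hB _ _ hI (fun i => ?_) fun p q e1 e2 e3 => ?_
    · obtain ⟨p, q, e1, e2, -, e3⟩ := hx i
      exact ⟨p, q, e1, e2, e3⟩
    · obtain ⟨i, -, hi⟩ := hx' p q e1 e2 e3
      exact ⟨i, hi⟩

end Pool.Agent.Results.MP_4f2529_ag.Exists
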